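import Pool.Agent.Helper96K9.LS.Tvs
import Pool.Agent.Helper47K9.SC.Tup

/-!
# Cycles of a permutation as sets of steps
-/

set_option autoImplicit false

namespace Pool.Agent.Helper96K9.LS

open Finset Equiv Pool.Agent.Y998.ST Pool.Agent.Helper47K9.SC

theorem mem_cyc {V : Type} [Fintype V] [DecidableEq V] (g : Perm V) (v : V) (e : V × V) :
    e ∈ cyc g v ↔ g.SameCycle v e.1 ∧ g e.1 = e.2 := by
  unfold cyc
  rw [Finset.mem_image]
  constructor
  · rintro ⟨x, hx, rfl⟩
    exact ⟨(Finset.mem_filter.1 hx).2, rfl⟩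
  · rintro ⟨h1, h2⟩
    exact ⟨e.1, Finset.mem_filter.2 ⟨Finset.mem_univ _, h1⟩, by rw [h2]⟩

theorem cyc_ok : S_CYC := by
  intro V _ _ g s w hinj hw a
  have h1 : ∀ (i : ℕ) (b : Fin s), ∃ c, (g ^ i) (w b) = w c := by
    intro i
    induction i with
    | zero => intro b; exact ⟨b, rfl⟩
    | succ i ih =>
      intro b
      obtain ⟨c, hc⟩ := ih b
      refine ⟨finRotate s c, ?_⟩
      rw [pow_succ', Perm.mul_apply, hc, hw]
  have hs : 1 ≤ s := by
    have := a.2
    omega
  have h2 : ∀ b : Fin s, g.SameCycle (w ⟨0, hs⟩) (w b) := by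
    intro b
    have h3 := TupL.word_eq g s hs w hw b b.2
    refine ⟨(b : ℕ), ?_⟩
    rw [zpow_natCast, ← Equiv.Perm.iterate_eq_pow]
    exact h3.symm
  ext e
  rw [mem_cyc]
  unfold steps
  rw [Finset.mem_image]
  constructor
  · rintro ⟨b, _, rfl⟩
    exact ⟨(h2 a).symm.trans (h2 b), hw b⟩
  · rintro ⟨h3, h4⟩
    obtain ⟨i, _, hi⟩ := h3.exists_pow_eq'
    obtain ⟨c, hc⟩ := h1 i a
    refine ⟨c, Finset.mem_univ _, ?_⟩
    have h5 : e.1 = w c := by rw [← hi, hc]
    refine Prod.ext h5.symm ?_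
    simp only
    rw [← hw, ← h5, h4]

theorem exi : S_EXI := by
  intro V _ _ g v
  obtain ⟨s, hs⟩ : ∃ s, s = Function.minimalPeriod g v := ⟨_, rfl⟩
  have hs1 : 1 ≤ s := by rw [hs]; exact TupL.minimalPeriod_pos g v
  have hinj : Function.Injective (fun i : Fin s => (g : V → V)^[i] v) := by
    intro i j hij
    have h1 := i.2
    have h2 := j.2
    simp only at hij
    refine Fin.ext ?_
    refine Function.iterate_injOn_Iio_minimalPeriod (f := g) (x := v) ?_ ?_ hij
    · rw [Set.mem_Iio, ← hs]; exact h1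
    · rw [Set.mem_Iio, ← hs]; exact h2
  have hw : ∀ a : Fin s, g ((g : V → V)^[a] v) = (g : V → V)^[(finRotate s a : Fin s)] v := by
    intro a
    rw [← Function.iterate_succ_apply' (g : V → V)]
    rcases Nat.lt_or_ge ((a : ℕ) + 1) s with h | h
    · have := TupL.rot_lt s a h
      rw [show (finRotate s a : Fin s) = ⟨(a : ℕ) + 1, h⟩ from this]
    · have ha : a = ⟨s - 1, by omega⟩ := by
        refine Fin.ext ?_
        have := a.2
        simp only
        omega
      have := TupL.rot_last s hs1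
      rw [ha, this]
      simp only
      have h3 : (s - 1).succ = s := by omega
      rw [h3, hs, Function.iterate_minimalPeriod]
      rfl
  have hc := cyc_ok V g s (fun i : Fin s => (g : V → V)^[i] v) hinj hw ⟨0, hs1⟩
  have hc' : steps (fun i : Fin s => (g : V → V)^[i] v) = cyc g v := hc
  refine ⟨s, fun i => (g : V → V)^[i] v, hs1, ?_, hinj, hw, ⟨⟨0, hs1⟩, rfl⟩, hc'.symm⟩
  rw [← hc']
  unfold steps
  rw [Finset.card_image_of_injective, Finset.card_univ, Fintype.card_fin]
  intro a b hab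
  exact hinj (Prod.ext_iff.1 hab).1

end Pool.Agent.Helper96K9.LS
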