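import Pool.Agent.Helper96K9.LS.Jpd
import Pool.Agent.Helper96K9.LS.Cyc

/-!
# Functionals of the short cycles are nearly invariant under transpositions
-/

set_option autoImplicit false

namespace Pool.Agent.Helper96K9.LS

open Finset Equiv
open Pool.Agent.Y998.ST (stirLaw stirExp hop nnRate exp_const exp_nonneg law_nonneg cycleLen)
open Pool.Agent.Y998.CN (law_sum)
open Pool.Agent.Y998.LP (NN)

section

variable {V : Type} [Fintype V] [DecidableEq V]

theorem cycleLen_cyc (g : Perm V) (v : V) : cycleLen g v = (cyc g v).card := by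
  classical
  unfold cycleLen cyc
  rw [Finset.card_image_of_injective _ (fun x y h => (Prod.ext_iff.1 h).1),
    Nat.card_eq_fintype_card, Fintype.card_subtype]

theorem card_steps' {m : ℕ} (w : Fin m → V) (hw : Function.Injective w) :
    (steps w).card = m := by
  unfold steps
  rw [Finset.card_image_of_injective, Finset.card_univ, Fintype.card_fin]
  intro a b hab
  exact hw (Prod.ext_iff.1 hab).1

theorem follow_change (g : Perm V) (x y : V) (s : ℕ) (γ : Finset (V × V))
    (hγ : ∃ m, 1 ≤ m ∧ m ≤ s ∧ IsC univ m γ) (h1 : Fg g γ) (h2 : ¬ Fg ((swap x y)⁻¹ * g) γ) :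
    cycleLen g x ≤ s ∨ cycleLen g y ≤ s := by
  obtain ⟨m, _, hm, w, hw, _, rfl⟩ := hγ
  unfold Fg at h2
  push Not at h2
  obtain ⟨e, he, hne⟩ := h2
  have h3 := h1 e he
  have h4 : e.2 = x ∨ e.2 = y := by
    by_contra hcon
    push Not at hcon
    apply hne
    rw [swap_inv, Perm.mul_apply, h3, swap_apply_of_ne_of_ne hcon.1 hcon.2]
  have hg : ∀ a, g (w a) = w (finRotate m a) := fun a =>
    h1 (w a, w (finRotate m a)) (Finset.mem_image_of_mem _ (Finset.mem_univ a))
  obtain ⟨a, _, rfl⟩ := Finset.mem_image.1 he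
  have h5 : cycleLen g (w (finRotate m a)) = m := by
    rw [cycleLen_cyc, ← cyc_ok V g m w hw hg (finRotate m a), card_steps' w hw]
  simp only at h4
  rcases h4 with h4 | h4
  · left
    rw [← h4, h5]
    exact hm
  · right
    rw [← h4, h5]
    exact hm

open Classical in
/-- near invariance -/
theorem psi_inv {J : V → V → ℝ} (hJ : ∀ x y, 0 ≤ J x y) {t : ℝ} (ht : 0 ≤ t) (s : ℕ)
    (X : Finset (Finset (V × V))) (hX : ∀ γ ∈ X, ∃ m, 1 ≤ m ∧ m ≤ s ∧ IsC univ m γ)
    (ψ : Finset (Finset (V × V)) → ℝ) (hψ : ∀ F, |ψ F| ≤ 1) (x y : V) (p : ℝ)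
    (hx : stirExp J t (fun g => if cycleLen g x ≤ s then 1 else 0) ≤ p)
    (hy : stirExp J t (fun g => if cycleLen g y ≤ s then 1 else 0) ≤ p) :
    ∑ g, stirLaw J t g * |ψ (X.filter fun γ => Fg ((swap x y)⁻¹ * g) γ) -
      ψ (X.filter fun γ => Fg g γ)| ≤ 8 * p + 4 * NN J t (swap x y) := by
  obtain ⟨I, hI⟩ : ∃ I : V → Perm V → ℝ, I = fun v g => if cycleLen g v ≤ s then 1 else 0 :=
    ⟨_, rfl⟩
  have hI0 : ∀ v g, 0 ≤ I v g := by
    intro v g; rw [hI]; simp only; split_ifs <;> norm_num
  have hI1 : ∀ v g, I v g ≤ 1 := by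
    intro v g; rw [hI]; simp only; split_ifs <;> norm_num
  have hIx : ∑ g, stirLaw J t g * I x g ≤ p := by rw [hI]; exact hx
  have hIy : ∑ g, stirLaw J t g * I y g ≤ p := by rw [hI]; exact hy
  have hpt : ∀ g : Perm V, |ψ (X.filter fun γ => Fg ((swap x y)⁻¹ * g) γ) -
      ψ (X.filter fun γ => Fg g γ)| ≤ 2 * (I x g + I y g +
        (I x ((swap x y)⁻¹ * g) + I y ((swap x y)⁻¹ * g))) := by
    intro g
    have h0 : 0 ≤ 2 * (I x g + I y g +
        (I x ((swap x y)⁻¹ * g) + I y ((swap x y)⁻¹ * g))) := by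
      have := hI0 x g
      have := hI0 y g
      have := hI0 x ((swap x y)⁻¹ * g)
      have := hI0 y ((swap x y)⁻¹ * g)
      linarith
    by_cases hE : X.filter (fun γ => Fg ((swap x y)⁻¹ * g) γ) = X.filter fun γ => Fg g γ
    · rw [hE, sub_self, abs_zero]
      exact h0
    · have h1 : ∃ γ ∈ X, ¬ (Fg ((swap x y)⁻¹ * g) γ ↔ Fg g γ) := by
        by_contra hcon
        push Not at hcon
        exact hE (Finset.filter_congr hcon)
      obtain ⟨γ, hγ, hne⟩ := h1
      have h2 : 1 ≤ I x g + I y g + (I x ((swap x y)⁻¹ * g) + I y ((swap x y)⁻¹ * g)) := by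
        have a1 := hI0 x g
        have a2 := hI0 y g
        have a3 := hI0 x ((swap x y)⁻¹ * g)
        have a4 := hI0 y ((swap x y)⁻¹ * g)
        have hone : ∀ v g, cycleLen g v ≤ s → I v g = 1 := by
          intro v g hle
          rw [hI]
          exact if_pos hle
        by_cases h3 : Fg g γ
        · have h4 : ¬ Fg ((swap x y)⁻¹ * g) γ := fun h5 => hne ⟨fun _ => h3, fun _ => h5⟩
          rcases follow_change g x y s γ (hX γ hγ) h3 h4 with h5 | h5
          · have := hone x g h5
            linarith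
          · have := hone y g h5
            linarith
        · have h4 : Fg ((swap x y)⁻¹ * g) γ := by
            by_contra h5
            exact hne ⟨fun h6 => absurd h6 h5, fun h6 => absurd h6 h3⟩
          have h5 : ¬ Fg ((swap x y)⁻¹ * ((swap x y)⁻¹ * g)) γ := by
            rw [← mul_assoc, swap_inv, swap_mul_self, one_mul]
            exact h3
          rcases follow_change ((swap x y)⁻¹ * g) x y s γ (hX γ hγ) h4 h5 with h6 | h6
          · have := hone x _ h6
            linarith
          · have := hone y _ h6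
            linarith
      have h3 := hψ (X.filter fun γ => Fg ((swap x y)⁻¹ * g) γ)
      have h4 := hψ (X.filter fun γ => Fg g γ)
      rw [abs_le] at h3 h4 ⊢
      constructor <;> linarith [h3.1, h3.2, h4.1, h4.2]
  have hshift : ∀ v, ∑ g, stirLaw J t g * I v ((swap x y)⁻¹ * g) ≤
      ∑ g, stirLaw J t g * I v g + NN J t (swap x y) := by
    intro v
    have e1 : ∑ g, stirLaw J t g * I v ((swap x y)⁻¹ * g) =
        ∑ g, stirLaw J t ((swap x y)⁻¹ * g) * I v g := by
      rw [← Equiv.sum_comp (Equiv.mulLeft (swap x y)⁻¹)]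
      refine Finset.sum_congr rfl fun g _ => ?_
      have e2 : (Equiv.mulLeft (swap x y)⁻¹) g = (swap x y)⁻¹ * g := rfl
      rw [e2, ← mul_assoc, swap_inv, swap_mul_self, one_mul]
    rw [e1]
    unfold NN
    rw [← Finset.sum_add_distrib]
    refine Finset.sum_le_sum fun g _ => ?_
    have h1 := le_abs_self (stirLaw J t ((swap x y)⁻¹ * g) - stirLaw J t g)
    have h2 := hI0 v g
    have h3 := hI1 v g
    have h4 : (stirLaw J t ((swap x y)⁻¹ * g) - stirLaw J t g) * I v g ≤
        |stirLaw J t ((swap x y)⁻¹ * g) - stirLaw J t g| := by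
      calc _ ≤ |stirLaw J t ((swap x y)⁻¹ * g) - stirLaw J t g| * I v g :=
            mul_le_mul_of_nonneg_right h1 h2
        _ ≤ _ := mul_le_of_le_one_right (abs_nonneg _) h3
    linarith
  calc ∑ g, stirLaw J t g * |ψ (X.filter fun γ => Fg ((swap x y)⁻¹ * g) γ) -
      ψ (X.filter fun γ => Fg g γ)|
      ≤ ∑ g, stirLaw J t g * (2 * (I x g + I y g +
        (I x ((swap x y)⁻¹ * g) + I y ((swap x y)⁻¹ * g)))) :=
        Finset.sum_le_sum fun g _ => mul_le_mul_of_nonneg_left (hpt g) (law_nonneg hJ ht g)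
    _ = 2 * (∑ g, stirLaw J t g * I x g + ∑ g, stirLaw J t g * I y g +
        (∑ g, stirLaw J t g * I x ((swap x y)⁻¹ * g) +
          ∑ g, stirLaw J t g * I y ((swap x y)⁻¹ * g))) := by
        rw [← Finset.sum_add_distrib, ← Finset.sum_add_distrib, ← Finset.sum_add_distrib,
          Finset.mul_sum]
        exact Finset.sum_congr rfl fun g _ => by ring
    _ ≤ 8 * p + 4 * NN J t (swap x y) := by
        have h1 := hshift x
        have h2 := hshift y
        linarith

end

end Pool.Agent.Helper96K9.LS
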