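import Pool.Agent.R517.PDL.M1

/-!
# The Poisson-Dirichlet law, jointly with a nearly invariant functional
-/

set_option autoImplicit false

namespace Pool.Agent.Helper96K9.LS

open Finset Equiv
open Pool.Agent.Y998.ST (stirLaw stirExp hop nnRate exp_const exp_nonneg law_nonneg)
open Pool.Agent.Y998.CN (law_sum)
open Pool.Agent.Y998.LP (NN bfrac NN_nonneg NN_one law_inv)
open Pool.Agent.Y998.LQ (bfrac_nonneg bfrac_le_one)
open Pool.Agent.TH268.PD (Cyc cyOf frac top pdm lip_approx top_lip top_nonneg top_le_one ret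
  ret_spec unif um pdl pdm_close)
open Pool.Agent.R517.PDS Pool.Agent.R517.PDL

section gen

variable {V : Type} [Fintype V] [DecidableEq V]

/-- The mean of a function of the induced permutation, for a nearly invariant signed measure. -/
theorem ind_mean' (μ : Perm V → ℝ) {k : ℕ} (b : Fin k → V) (hb : Function.Injective b)
    (η : ℝ) (hη : 0 ≤ η) (h : ∀ i j, ∑ g, |μ ((swap (b i) (b j))⁻¹ * g) - μ g| ≤ η)
    (G : Perm (Fin k) → ℝ) (C : ℝ) (hC : 0 ≤ C) (hG : ∀ π, |G π| ≤ C) :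
    |∑ g, μ g * G (ret k b g) - (∑ g, μ g) * (∑ π, G π) / (k.factorial : ℝ)| ≤ k * (C * η) := by
  classical
  obtain ⟨_, h2, _, _⟩ := ret_spec k b hb
  obtain ⟨P, hP⟩ : ∃ P : Perm (Fin k) → ℝ, P = fun σ =>
    ∑ g, μ g * G (σ⁻¹ * ret k b g) := ⟨_, rfl⟩
  have h3 : ∀ i j : Fin k, i ≠ j → ∀ σ, |P σ - P (swap i j * σ)| ≤ C * η := by
    intro i j _ σ
    have e1 : P (swap i j * σ) = ∑ g, μ ((swap (b i) (b j))⁻¹ * g) *
        G (σ⁻¹ * ret k b g) := by
      rw [hP]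
      beta_reduce
      rw [← Equiv.sum_comp (Equiv.mulLeft (swap (b i) (b j)))⁻¹]
      refine Finset.sum_congr rfl fun g _ => ?_
      have e3 : ((Equiv.mulLeft (swap (b i) (b j)))⁻¹ : Perm (Perm V)) g =
          (swap (b i) (b j))⁻¹ * g := rfl
      rw [e3]
      congr 2
      rw [swap_inv, h2, mul_inv_rev, swap_inv, ← mul_assoc, mul_assoc σ⁻¹, swap_mul_self,
        mul_one]
    rw [e1, hP]
    beta_reduce
    rw [← Finset.sum_sub_distrib]
    refine (Finset.abs_sum_le_sum_abs _ _).trans ?_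
    refine le_trans ?_ (mul_le_mul_of_nonneg_left (h i j) hC)
    rw [Finset.mul_sum]
    refine Finset.sum_le_sum fun g _ => ?_
    rw [← sub_mul, abs_mul, abs_sub_comm, mul_comm]
    exact mul_le_mul_of_nonneg_right (hG _) (abs_nonneg _)
  have h4 := unif k P (C * η) (by positivity) h3 1
  have e1 : P 1 = ∑ g, μ g * G (ret k b g) := by
    rw [hP]
    simp
  have e2 : ∑ σ, P σ = (∑ g, μ g) * ∑ π, G π := by
    rw [hP]
    beta_reduce
    rw [Finset.sum_comm]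
    have e3 : ∀ g : Perm V, ∑ σ : Perm (Fin k), μ g * G (σ⁻¹ * ret k b g) =
        μ g * ∑ π, G π := by
      intro g
      rw [← Finset.mul_sum]
      congr 1
      rw [← Equiv.sum_comp ((Equiv.inv (Perm (Fin k))).trans (Equiv.mulRight (ret k b g))) G]
      rfl
    rw [Finset.sum_congr rfl fun g _ => e3 g, ← Finset.sum_mul]
  rw [e1, e2] at h4
  exact h4

open Pool.Agent.Y998.LQ in
/-- The ordered fractions of a set, for a nearly invariant signed measure. -/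
theorem set_mean' (μ w : Perm V → ℝ) (hw1 : ∑ g, w g = 1)
    (hμ : ∀ g, |μ g| ≤ w g) (B : Finset V)
    (k : ℕ) (hk : 0 < k) (hB : 0 < B.card) (η : ℝ) (hη : 0 ≤ η)
    (h : ∀ x ∈ B, ∀ y ∈ B, ∑ g, |μ ((swap x y)⁻¹ * g) - μ g| ≤ η)
    (m : ℕ) (f : (Fin m → ℝ) → ℝ) (C Λ : ℝ)
    (hΛ : 0 ≤ Λ) (hC : ∀ u, |f u| ≤ C)
    (hf : ∀ (u v : Fin m → ℝ) (e : ℝ), 0 ≤ e → (∀ i, |u i - v i| ≤ e) → |f u - f v| ≤ Λ * e) :
    |∑ g, μ g * f (fun i => top (bfrac B g) i) - (∑ g, μ g) * um k f| ≤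
      Λ / Real.sqrt k + 2 * (C * (k ^ 2 / B.card)) + k * (C * η) := by
  classical
  have hC0 : 0 ≤ C := (abs_nonneg _).trans (hC (fun _ => 0))
  obtain ⟨n, hn⟩ : ∃ n : ℝ, n = (B.card : ℝ) := ⟨_, rfl⟩
  have hn0 : 0 < n := by rw [hn]; exact_mod_cast hB
  obtain ⟨F, hF⟩ : ∃ F : Perm (Fin k) → ℝ, F = fun π => f (fun i => top (frac π) i) := ⟨_, rfl⟩
  have hFC : ∀ π, |F π| ≤ C := fun π => by rw [hF]; exact hC _
  obtain ⟨Z, hZ⟩ : ∃ Z : ℝ, Z = ∑ g, μ g := ⟨_, rfl⟩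
  have hZ1 : |Z| ≤ 1 := by
    rw [hZ, ← hw1]
    exact (Finset.abs_sum_le_sum_abs _ _).trans (Finset.sum_le_sum fun g _ => hμ g)
  obtain ⟨S, hS⟩ : ∃ S, S = (Fintype.piFinset (fun _ : Fin k => B)).filter Function.Injective :=
    ⟨_, rfl⟩
  have hScard : |(S.card : ℝ) - n ^ k| ≤ (k : ℝ) ^ 2 * n ^ (k - 1) := by
    rw [hS, hn]
    exact Pool.Agent.Y998.LP.card_inj B k hk hB
  have hSle : (S.card : ℝ) ≤ n ^ k := by
    have h1 : S.card ≤ (Fintype.piFinset (fun _ : Fin k => B)).card := by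
      rw [hS]; exact Finset.card_filter_le _ _
    rw [Fintype.card_piFinset_const] at h1
    rw [hn]
    exact_mod_cast h1
  obtain ⟨T, hT⟩ : ∃ T, T = ∑ g, μ g * f (fun i => top (bfrac B g) i) := ⟨_, rfl⟩
  have h1 : |∑ b ∈ S, ∑ g, μ g * F (ret k b g) - n ^ k * T| ≤
      n ^ k * (Λ / Real.sqrt k) + C * ((k : ℝ) ^ 2 * n ^ (k - 1)) := by
    have e1 : ∑ b ∈ S, ∑ g, μ g * F (ret k b g) - n ^ k * T =
        ∑ g, μ g * ((∑ b ∈ Fintype.piFinset (fun _ : Fin k => B),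
          if Function.Injective b then F (ret k b g) else 0) -
            n ^ k * f (fun i => top (bfrac B g) i)) := by
      rw [Finset.sum_comm, hT, Finset.mul_sum, ← Finset.sum_sub_distrib]
      refine Finset.sum_congr rfl fun g _ => ?_
      rw [hS, Finset.sum_filter, mul_sub, Finset.mul_sum]
      congr 1
      · refine Finset.sum_congr rfl fun b _ => ?_
        rw [mul_ite, mul_zero]
      · ring
    rw [e1]
    refine (Finset.abs_sum_le_sum_abs _ _).trans ?_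
    have h2 : ∀ g : Perm V, |(∑ b ∈ Fintype.piFinset (fun _ : Fin k => B),
          if Function.Injective b then F (ret k b g) else 0) -
            n ^ k * f (fun i => top (bfrac B g) i)| ≤
          n ^ k * (Λ / Real.sqrt k) + C * ((k : ℝ) ^ 2 * n ^ (k - 1)) := by
      intro g
      have h3 := Pool.Agent.Y259.LP.t_SAMP V B k hk hB g (fun b => ret k b g)
        (fun b hb => (ret_spec k b hb).2.2.2 g) m f C Λ hΛ hC hf
      rw [hn, hF]
      convert h3 using 4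
    have hX : 0 ≤ n ^ k * (Λ / Real.sqrt k) + C * ((k : ℝ) ^ 2 * n ^ (k - 1)) := by positivity
    have h4 : ∀ g : Perm V, |μ g * ((∑ b ∈ Fintype.piFinset (fun _ : Fin k => B),
          if Function.Injective b then F (ret k b g) else 0) -
            n ^ k * f (fun i => top (bfrac B g) i))| ≤ w g *
          (n ^ k * (Λ / Real.sqrt k) + C * ((k : ℝ) ^ 2 * n ^ (k - 1))) := by
      intro g
      rw [abs_mul]
      exact mul_le_mul (hμ g) (h2 g) (abs_nonneg _) ((abs_nonneg _).trans (hμ g))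
    refine (Finset.sum_le_sum fun g _ => h4 g).trans (le_of_eq ?_)
    rw [← Finset.sum_mul, hw1, one_mul]
  have hum : um k f = (∑ π, F π) / (k.factorial : ℝ) := by rw [hF]; rfl
  have h2 : |∑ b ∈ S, ∑ g, μ g * F (ret k b g) - S.card * (Z * um k f)| ≤
      S.card * (k * (C * η)) := by
    rw [hum, ← nsmul_eq_mul, ← nsmul_eq_mul, ← Finset.sum_const, ← Finset.sum_const,
      ← Finset.sum_sub_distrib]
    refine (Finset.abs_sum_le_sum_abs _ _).trans (Finset.sum_le_sum fun b hb => ?_)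
    rw [hS, Finset.mem_filter, Fintype.mem_piFinset] at hb
    have h3 := ind_mean' μ b hb.2 η hη (fun i j => h _ (hb.1 i) _ (hb.1 j)) F C hC0 hFC
    rw [hZ, ← mul_div_assoc]
    exact h3
  have humC : |um k f| ≤ C := by
    have hfac : (0 : ℝ) < (k.factorial : ℝ) := by exact_mod_cast k.factorial_pos
    rw [hum, abs_div, abs_of_pos hfac, div_le_iff₀ hfac]
    refine (Finset.abs_sum_le_sum_abs _ _).trans ?_
    refine (Finset.sum_le_sum fun σ _ => hFC σ).trans (le_of_eq ?_)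
    rw [Finset.sum_const, Finset.card_univ, Fintype.card_perm, Fintype.card_fin, nsmul_eq_mul,
      mul_comm]
  have hZum : |Z * um k f| ≤ C := by
    rw [abs_mul]
    calc |Z| * |um k f| ≤ 1 * C := mul_le_mul hZ1 humC (abs_nonneg _) zero_le_one
      _ = C := one_mul _
  have h3 : |(S.card : ℝ) * (Z * um k f) - n ^ k * (Z * um k f)| ≤
      C * ((k : ℝ) ^ 2 * n ^ (k - 1)) := by
    rw [← sub_mul, abs_mul, mul_comm]
    exact mul_le_mul hZum hScard (abs_nonneg _) hC0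
  have hX0 : 0 ≤ (k : ℝ) * (C * η) := by positivity
  have h4 : n ^ k * |T - Z * um k f| ≤ n ^ k * (Λ / Real.sqrt k) + 2 * (C * ((k : ℝ) ^ 2 *
      n ^ (k - 1))) + n ^ k * (k * (C * η)) := by
    have h5 : n ^ k * |T - Z * um k f| = |n ^ k * T - n ^ k * (Z * um k f)| := by
      rw [← mul_sub, abs_mul, abs_of_pos (pow_pos hn0 k)]
    rw [h5]
    have h6 := mul_le_mul_of_nonneg_right hSle hX0
    rw [abs_le] at h1 h2 h3 ⊢
    constructor <;> linarith [h1.1, h1.2, h2.1, h2.2, h3.1, h3.2]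
  have hnk : n ^ k = n ^ (k - 1) * n := by
    rw [← pow_succ]
    congr 1
    omega
  have hnk0 : 0 < n ^ k := pow_pos hn0 k
  have h5 : n ^ k * (Λ / Real.sqrt k) + 2 * (C * ((k : ℝ) ^ 2 *
      n ^ (k - 1))) + n ^ k * (k * (C * η)) = n ^ k * (Λ / Real.sqrt k +
        2 * (C * (k ^ 2 / n)) + k * (C * η)) := by
    rw [hnk]
    field_simp
  rw [h5] at h4
  have h6 := le_of_mul_le_mul_left h4 hnk0
  rw [← hT, ← hn, ← hZ]
  exact h6

/-- Change of a product of the law and a functional under a transposition. -/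
theorem prod_inv {J : V → V → ℝ} (hJ : ∀ x y, 0 ≤ J x y) {t : ℝ} (ht : 0 ≤ t)
    (Ψ : Perm V → ℝ) (hΨ : ∀ g, |Ψ g| ≤ 1) (h : Perm V) :
    ∑ g, |stirLaw J t (h⁻¹ * g) * Ψ (h⁻¹ * g) - stirLaw J t g * Ψ g| ≤
      NN J t h + ∑ g, stirLaw J t g * |Ψ (h⁻¹ * g) - Ψ g| := by
  unfold NN
  rw [← Finset.sum_add_distrib]
  refine Finset.sum_le_sum fun g _ => ?_
  have e1 : stirLaw J t (h⁻¹ * g) * Ψ (h⁻¹ * g) - stirLaw J t g * Ψ g =
      (stirLaw J t (h⁻¹ * g) - stirLaw J t g) * Ψ (h⁻¹ * g) +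
        stirLaw J t g * (Ψ (h⁻¹ * g) - Ψ g) := by ring
  rw [e1]
  refine (abs_add_le _ _).trans (add_le_add ?_ ?_)
  · rw [abs_mul]
    exact mul_le_of_le_one_right (abs_nonneg _) (hΨ _)
  · rw [abs_mul, abs_of_nonneg (law_nonneg hJ ht g)]

end gen

/-- The Poisson-Dirichlet law for a set `S`, jointly with a bounded functional that is nearly
invariant under transpositions of the points of an auxiliary set `B`. -/
theorem pd_joint (m : ℕ) (f : (Fin m → ℝ) → ℝ) (hfc : Continuous f) (C : ℝ)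
    (hC : ∀ u, |f u| ≤ C) (ε : ℝ) (hε : 0 < ε) : ∃ δ : ℝ, 0 < δ ∧ ∃ N₀ : ℕ, 0 < N₀ ∧
    ∃ κ : ℝ, 0 < κ ∧
    ∀ (V : Type) [Fintype V] [DecidableEq V] (J : V → V → ℝ), (∀ x y, 0 ≤ J x y) → ∀ t : ℝ,
    0 ≤ t → ∀ B : Finset V, N₀ ≤ B.card → (∀ x ∈ B, ∀ y ∈ B, NN J t (swap x y) ≤ δ) →
    ∀ Ψ : Perm V → ℝ, (∀ g, |Ψ g| ≤ 1) →
    (∀ x ∈ B, ∀ y ∈ B, ∑ g, stirLaw J t g * |Ψ ((swap x y)⁻¹ * g) - Ψ g| ≤ δ) →
    ∀ S : Finset V, stirExp J t (fun g => DR g Finset.univ (ds B S)) ≤ κ →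
    |stirExp J t (fun g => Ψ g * f (fun i => top (bfrac S g) i)) - stirExp J t Ψ * pdm f| ≤ ε := by
  classical
  have hC0 : 0 ≤ C := (abs_nonneg _).trans (hC (fun _ => 0))
  obtain ⟨Λ, h, hΛ, hhc, hhC, hhL, hfh⟩ := lip_approx m f hfc C hC (ε / 8) (by positivity)
  have h1 := Pool.Agent.TH268.PD.Unif.lim_um pdl hhc hhC
  rw [Metric.tendsto_atTop] at h1
  obtain ⟨k₀, hk₀⟩ := h1 (ε / 16) (by positivity)
  obtain ⟨k₁, hk₁⟩ := exists_nat_gt ((16 * (Λ + 1) / ε) ^ 2)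
  obtain ⟨k, hk⟩ : ∃ k, k = max (max k₀ k₁) 1 := ⟨_, rfl⟩
  have hk1 : 1 ≤ k := by rw [hk]; exact le_max_right _ _
  have hkk0 : k₀ ≤ k := by rw [hk]; exact (le_max_left _ _).trans (le_max_left _ _)
  have hkk1 : k₁ ≤ k := by rw [hk]; exact (le_max_right _ _).trans (le_max_left _ _)
  have hkR : (1 : ℝ) ≤ k := by exact_mod_cast hk1
  have hsq : 0 < Real.sqrt k := Real.sqrt_pos.2 (by linarith)
  have e1 : Λ / Real.sqrt k ≤ ε / 16 := by
    have h2 : 16 * (Λ + 1) / ε ≤ Real.sqrt k := by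
      apply Real.le_sqrt_of_sq_le
      have : (k₁ : ℝ) ≤ k := by exact_mod_cast hkk1
      linarith
    rw [div_le_iff₀ hε] at h2
    rw [div_le_iff₀ hsq]
    nlinarith
  have e2 : |um k h - pdm h| ≤ ε / 16 := by
    have := hk₀ k hkk0
    rw [Real.dist_eq] at this
    exact this.le
  obtain ⟨N, hN⟩ := exists_nat_gt (32 * (C * k ^ 2) / ε)
  obtain ⟨a, ha⟩ : ∃ a : ℝ, a = ε / (8 * (Λ + 1)) := ⟨_, rfl⟩
  have ha0 : 0 < a := by rw [ha]; positivity
  have hΛa : Λ * a ≤ ε / 8 := by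
    have h1 : Λ * a = ε / 8 * (Λ / (Λ + 1)) := by
      rw [ha]
      have : Λ + 1 ≠ 0 := by positivity
      field_simp
    rw [h1]
    refine mul_le_of_le_one_right (by positivity) ?_
    rw [div_le_one (by positivity)]
    linarith
  obtain ⟨δ, hδ⟩ : ∃ δ : ℝ, δ = ε / (32 * (k * (C + 1))) := ⟨_, rfl⟩
  have hδ0 : 0 < δ := by rw [hδ]; positivity
  refine ⟨δ, hδ0, N + 1, by omega, a ^ 2, by positivity, ?_⟩
  intro V _ _ J hJ t ht B hB hη Ψ hΨ hΨi S hκ
  have hB0 : 0 < B.card := by omega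
  have hBR : (0 : ℝ) < B.card := by exact_mod_cast hB0
  have hNB : (N : ℝ) ≤ B.card := by
    have : N ≤ B.card := by omega
    exact_mod_cast this
  have hlaw : ∑ g, stirLaw J t g = 1 := law_sum J t
  have hμ : ∀ g, |stirLaw J t g * Ψ g| ≤ stirLaw J t g := by
    intro g
    rw [abs_mul, abs_of_nonneg (law_nonneg hJ ht g)]
    exact mul_le_of_le_one_right (law_nonneg hJ ht g) (hΨ g)
  have e3 := set_mean' (fun g => stirLaw J t g * Ψ g) (stirLaw J t) hlaw hμ B k (by omega) hB0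
    (2 * δ) (by positivity) (fun x hx y hy => by
      refine (prod_inv hJ ht Ψ hΨ (swap x y)).trans ?_
      have h2 := hη x hx y hy
      have h3 := hΨi x hx y hy
      linarith) m h C Λ hΛ hhC hhL
  have e4 : 2 * (C * (k ^ 2 / B.card)) ≤ ε / 16 := by
    have h2 : 32 * (C * k ^ 2) ≤ ε * B.card := by
      rw [div_lt_iff₀ hε] at hN
      nlinarith
    have h3 : 2 * (C * ((k : ℝ) ^ 2 / B.card)) = 2 * (C * k ^ 2) / B.card := by ring
    rw [h3, div_le_iff₀ hBR]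
    linarith
  have e5 : k * (C * (2 * δ)) ≤ ε / 16 := by
    have h2 : k * (C * (2 * δ)) = ε / 16 * (C / (C + 1)) := by
      have : (k : ℝ) ≠ 0 := by positivity
      rw [hδ]
      field_simp
      ring
    rw [h2]
    refine mul_le_of_le_one_right (by positivity) ?_
    rw [div_le_one (by positivity)]
    linarith
  obtain ⟨Z, hZ⟩ : ∃ Z : ℝ, Z = stirExp J t Ψ := ⟨_, rfl⟩
  have hZ' : ∑ g, stirLaw J t g * Ψ g = Z := by rw [hZ]; rfl
  have hZ1 : |Z| ≤ 1 := by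
    rw [← hZ', ← hlaw]
    exact (Finset.abs_sum_le_sum_abs _ _).trans (Finset.sum_le_sum fun g _ => hμ g)
  rw [hZ'] at e3
  -- from `h` to `f` and from `B` to `S`
  obtain ⟨D, hD⟩ : ∃ D : Perm V → ℝ, D = fun g => DR g Finset.univ (ds B S) := ⟨_, rfl⟩
  have hDn : ∀ g, 0 ≤ D g := fun g => by rw [hD]; exact trans_DR_nonneg g _
  have hκ' : ∑ g, stirLaw J t g * D g ≤ a ^ 2 := by
    rw [hD]
    exact hκ
  have e6 : ∀ g : Perm V, |f (fun i => top (bfrac S g) i) - h (fun i => top (bfrac B g) i)| ≤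
      ε / 8 + Λ * (a / 2 + D g / (2 * a)) := by
    intro g
    have hfin : Finite (Cyc g) := Quotient.finite _
    have h1 := hfh (fun i => top (bfrac S g) i) fun i =>
      ⟨top_nonneg _ (bfrac_nonneg S g) i,
        top_le_one _ (bfrac_nonneg S g) (bfrac_le_one S g) i⟩
    have hM0 : 0 ≤ a / 2 + D g / (2 * a) := by
      have := hDn g
      positivity
    have h3 := hhL (fun i => top (bfrac S g) i) (fun i => top (bfrac B g) i)
      (a / 2 + D g / (2 * a)) hM0 fun i =>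
        top_lip _ _ (bfrac_nonneg S g) (bfrac_nonneg B g) _ hM0
          (fun γ => by rw [hD]; exact trans_close2 B S g γ a ha0) i
    rw [abs_le] at h1 h3 ⊢
    constructor <;> linarith [h1.1, h1.2, h3.1, h3.2]
  have e7 : |stirExp J t (fun g => Ψ g * f (fun i => top (bfrac S g) i)) -
      ∑ g, stirLaw J t g * Ψ g * h (fun i => top (bfrac B g) i)| ≤ ε / 8 + ε / 8 := by
    unfold stirExp
    rw [← Finset.sum_sub_distrib]
    refine (Finset.abs_sum_le_sum_abs _ _).trans ?_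
    have h2 : ∀ g : Perm V, |stirLaw J t g * (Ψ g * f (fun i => top (bfrac S g) i)) -
        stirLaw J t g * Ψ g * h (fun i => top (bfrac B g) i)| ≤
          stirLaw J t g * (ε / 8 + Λ * (a / 2 + D g / (2 * a))) := by
      intro g
      rw [← mul_assoc, ← mul_sub, abs_mul]
      exact mul_le_mul (hμ g) (e6 g) (abs_nonneg _) (law_nonneg hJ ht g)
    refine (Finset.sum_le_sum fun g _ => h2 g).trans ?_
    have h3 : ∑ g, stirLaw J t g * (ε / 8 + Λ * (a / 2 + D g / (2 * a))) =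
        (ε / 8 + Λ * (a / 2)) * ∑ g, stirLaw J t g +
          Λ / (2 * a) * ∑ g, stirLaw J t g * D g := by
      rw [Finset.mul_sum, Finset.mul_sum, ← Finset.sum_add_distrib]
      refine Finset.sum_congr rfl fun g _ => ?_
      field_simp
      ring
    rw [h3, law_sum, mul_one]
    have h4 : Λ / (2 * a) * ∑ g, stirLaw J t g * D g ≤ Λ / (2 * a) * a ^ 2 :=
      mul_le_mul_of_nonneg_left hκ' (by positivity)
    have h5 : Λ / (2 * a) * a ^ 2 = Λ * a / 2 := by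
      field_simp
    linarith
  have e8 : |pdm f - pdm h| ≤ ε / 8 := by
    have := pdm_close pdl m f h hfc hhc C hC hhC (ε / 8) hfh 1 zero_le_one le_rfl
    simpa only [one_mul] using this
  rw [← hZ]
  have e9 : |Z * um k h - Z * pdm f| ≤ ε / 16 + ε / 8 := by
    rw [← mul_sub, abs_mul]
    have h2 : |um k h - pdm f| ≤ ε / 16 + ε / 8 := by
      rw [abs_le] at e2 e8 ⊢
      constructor <;> linarith [e2.1, e2.2, e8.1, e8.2]
    calc |Z| * |um k h - pdm f| ≤ 1 * (ε / 16 + ε / 8) :=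
          mul_le_mul hZ1 h2 (abs_nonneg _) zero_le_one
      _ = _ := one_mul _
  rw [abs_le] at e3 e7 e9 ⊢
  constructor <;> linarith [e3.1, e3.2, e7.1, e7.2, e9.1, e9.2]

end Pool.Agent.Helper96K9.LS
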