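import Pool.Agent.Helper96K9.LS.Jinv
import Pool.Agent.Helper47K9.SH.K8
import Pool.Agent.Results.MP_6c3d62_pr.TypicalCycles

/-!
# The joint law of the short cycles and the macroscopic cycles on the torus
-/

set_option autoImplicit false

namespace Pool.Agent.Helper96K9.LS

open Finset Equiv
open Pool.Agent.Y998.ST (stirLaw stirExp hop nnRate exp_const exp_nonneg nn_nonneg nn_symm
  nn_diag law_nonneg qq_torus cycleLen)
open Pool.Agent.Y998.LP (NN bfrac tdist NN_nonneg NN_one law_inv)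
open Pool.Agent.Y998.LQ (bfrac_nonneg bfrac_le_one)
open Pool.Agent.TH268.PD (Cyc cyOf frac top pdm lip_approx top_lip top_nonneg top_le_one)
open Pool.Agent.R517.PDS Pool.Agent.R517.PDL
open Pool.Agent.Helper47K9.SH

/-- points are rarely in short cycles -/
theorem short_rare (d : ℕ) (hd : 1 ≤ d) (s : ℕ) (p : ℝ) (hp : 0 < p) : ∃ Y : ℕ,
    ∀ (L : ℕ) [NeZero L], 3 ≤ L → Y ≤ L ^ d → ∀ t : ℝ, (Y : ℝ) ^ 2 + 1 ≤ t →
    ∀ v : Fin d → ZMod L,
    stirExp (nnRate d L) t (fun g => if cycleLen g v ≤ s then 1 else 0) ≤ p := by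
  obtain ⟨C, hC, h⟩ := Pool.Agent.Results.MP_6c3d62_pr.TypicalCycles.result d hd
  obtain ⟨a, ha⟩ : ∃ a : ℝ, a = (p / C) ^ ((d : ℝ) + 3) := ⟨_, rfl⟩
  have ha0 : 0 < a := by rw [ha]; positivity
  obtain ⟨Y, hY⟩ := exists_nat_gt (1 + s / a)
  have hsa : 0 ≤ (s : ℝ) / a := by positivity
  have hY1 : (1 : ℝ) ≤ Y := by linarith
  refine ⟨Y, ?_⟩
  intro L _ hL hYL t ht v
  have ht1 : 1 ≤ t := by nlinarith [sq_nonneg (Y : ℝ)]
  have ht0 : 0 < t := by linarith
  refine (h L hL t ht0 v s).trans ?_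
  have hmax : (1 : ℝ) / 2 ≤ max ((d : ℝ) / 2) ((d : ℝ) - 1) := by
    refine le_trans ?_ (le_max_left _ _)
    have : (1 : ℝ) ≤ d := by exact_mod_cast hd
    linarith
  have h1 : (Y : ℝ) ≤ t ^ max ((d : ℝ) / 2) ((d : ℝ) - 1) := by
    have h2 : (Y : ℝ) ≤ t ^ ((1 : ℝ) / 2) := by
      rw [← Real.sqrt_eq_rpow]
      exact Real.le_sqrt_of_sq_le (by linarith)
    exact h2.trans (Real.rpow_le_rpow_of_exponent_le ht1 hmax)
  have h2 : (Y : ℝ) ≤ (L : ℝ) ^ d := by exact_mod_cast hYL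
  have h3 : (Y : ℝ) ≤ min (t ^ max ((d : ℝ) / 2) ((d : ℝ) - 1)) ((L : ℝ) ^ d) := le_min h1 h2
  have h4 : (s : ℝ) / min (t ^ max ((d : ℝ) / 2) ((d : ℝ) - 1)) ((L : ℝ) ^ d) ≤ a := by
    have h5 : (s : ℝ) / min (t ^ max ((d : ℝ) / 2) ((d : ℝ) - 1)) ((L : ℝ) ^ d) ≤ s / Y :=
      div_le_div_of_nonneg_left (by positivity) (by linarith) h3
    refine h5.trans ?_
    rw [div_le_iff₀ (by linarith)]
    have h6 : (s : ℝ) / a ≤ Y := by linarith
    rw [div_le_iff₀ ha0] at h6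
    linarith
  have h5 : ((s : ℝ) / min (t ^ max ((d : ℝ) / 2) ((d : ℝ) - 1)) ((L : ℝ) ^ d)) ^
      (1 / ((d : ℝ) + 3)) ≤ a ^ (1 / ((d : ℝ) + 3)) := by
    refine Real.rpow_le_rpow ?_ h4 (by positivity)
    have : 0 ≤ min (t ^ max ((d : ℝ) / 2) ((d : ℝ) - 1)) ((L : ℝ) ^ d) := by linarith
    positivity
  have h6 : a ^ (1 / ((d : ℝ) + 3)) = p / C := by
    rw [ha, ← Real.rpow_mul (by positivity)]
    have : ((d : ℝ) + 3) * (1 / ((d : ℝ) + 3)) = 1 := by
      field_simp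
    rw [this, Real.rpow_one]
  rw [h6] at h5
  calc C * _ ≤ C * (p / C) := mul_le_mul_of_nonneg_left h5 hC.le
    _ = p := by field_simp

open Classical in
theorem jt (d : ℕ) (hd : 1 ≤ d) (m : ℕ) (f : (Fin m → ℝ) → ℝ) (hf : Continuous f) (C₀ : ℝ)
    (hC₀ : ∀ u, |f u| ≤ C₀) (s : ℕ) (ε : ℝ) (hε : 0 < ε) :
    ∃ T : ℝ, 0 < T ∧ ∃ κ : ℝ, 0 < κ ∧ ∃ N : ℕ, ∀ (L : ℕ) [NeZero L], 3 ≤ L → ∀ t : ℝ, T ≤ t →
      ∀ S : Finset (Fin d → ZMod L), N ≤ S.card →
      (∀ x ∈ S, ∀ y ∈ S, (tdist x y : ℝ) ≤ κ * XX d t) →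
      ∀ X : Finset (Finset ((Fin d → ZMod L) × (Fin d → ZMod L))),
      (∀ γ ∈ X, ∃ m, 1 ≤ m ∧ m ≤ s ∧ IsC univ m γ) →
      ∀ ψ : Finset (Finset ((Fin d → ZMod L) × (Fin d → ZMod L))) → ℝ, (∀ F, |ψ F| ≤ 1) →
      |stirExp (nnRate d L) t (fun g => ψ (X.filter fun γ => Fg g γ) *
          f (fun i => top (bfrac S g) i)) -
        stirExp (nnRate d L) t (fun g => ψ (X.filter fun γ => Fg g γ)) * pdm f| ≤ ε := by
  obtain ⟨C, hC, hdist⟩ := Pool.Agent.Y998.LQ.t_dist d hd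
  obtain ⟨δJ, hδJ, N₀, hN₀, κT, hκT, htr⟩ := pd_joint m f hf C₀ hC₀ ε hε
  obtain ⟨Yp, hYp⟩ := short_rare d hd s (δJ / 16) (by positivity)
  obtain ⟨A₁, hA₁, hlong⟩ := long_NN d hd (δJ / 8) (by positivity)
  obtain ⟨T₀, hT₀, κ₂, hκ₂, _, htwo⟩ := kloc3 d hd 2 (by norm_num) (κT / 16) (by positivity)
  have hd1 : (1 : ℝ) ≤ d := by exact_mod_cast hd
  have hsA : 0 < Real.sqrt A₁ := Real.sqrt_pos.2 (by linarith)
  obtain ⟨δT, hδTd⟩ : ∃ δT : ℝ, δT = δJ / 8 := ⟨_, rfl⟩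
  have hδT : 0 < δT := by rw [hδTd]; positivity
  obtain ⟨δ, hδ⟩ : ∃ δ : ℝ, δ = min (1 / Real.sqrt A₁) (min (δT / (C * d)) (κ₂ / (4 * d))) :=
    ⟨_, rfl⟩
  have hδ0 : 0 < δ := by
    rw [hδ]
    exact lt_min (by positivity) (lt_min (by positivity) (by positivity))
  have hδ1 : δ * Real.sqrt A₁ ≤ 1 := by
    have h1 : δ ≤ 1 / Real.sqrt A₁ := by rw [hδ]; exact min_le_left _ _
    rwa [le_div_iff₀ hsA] at h1
  have hδ2 : C * d * δ ≤ δT := by
    have h1 : δ ≤ δT / (C * d) := by rw [hδ]; exact (min_le_right _ _).trans (min_le_left _ _)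
    rw [le_div_iff₀ (by positivity)] at h1
    linarith
  have hδ3 : 4 * d * δ ≤ κ₂ := by
    have h1 : δ ≤ κ₂ / (4 * d) := by rw [hδ]; exact (min_le_right _ _).trans (min_le_right _ _)
    rw [le_div_iff₀ (by positivity)] at h1
    linarith
  obtain ⟨N₃, hN₃⟩ := exists_nat_gt (N₀ + 8 / κT)
  obtain ⟨A₃, hA₃, hsX⟩ := sqrt_le_XX d hd
  have hN₃pos : (0 : ℝ) < 8 / κT := by positivity
  have hN₀₃ : N₀ ≤ N₃ := by
    have : (N₀ : ℝ) ≤ N₃ := by linarith
    exact_mod_cast this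
  have hN₃1 : 1 ≤ N₃ := by
    have h1 : (0 : ℝ) < N₃ := by
      have : (0 : ℝ) ≤ N₀ := by positivity
      linarith
    exact_mod_cast h1
  have hsq : 0 ≤ (((N₃ : ℝ) + 1) / δ) ^ 2 := sq_nonneg _
  have hsqY : 0 ≤ (Yp : ℝ) ^ 2 := sq_nonneg _
  refine ⟨T₀ + (((N₃ : ℝ) + 1) / δ) ^ 2 + A₃ + ((Yp : ℝ) ^ 2 + 1), by linarith, κ₂ / 4,
    by positivity, N₃ + Yp, ?_⟩
  intro L _ hL t ht S hS hdis X hX ψ hψ
  have hL3r : (3 : ℝ) ≤ L := by exact_mod_cast hL
  have ht1 : 1 ≤ t := by linarith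
  have ht0 : 0 < t := by linarith
  -- the number of sites is large
  have hcardS : S.card ≤ L ^ d := by
    have h1 := Finset.card_le_univ S
    rwa [Fintype.card_fun, ZMod.card, Fintype.card_fin] at h1
  have hrare := hYp L hL (by omega) t (by linarith)
  -- near invariance
  have hinvar : ∀ x y : Fin d → ZMod L, NN (nnRate d L) t (swap x y) ≤ δT →
      ∑ g, stirLaw (nnRate d L) t g * |(fun g => ψ (X.filter fun γ => Fg g γ))
        ((swap x y)⁻¹ * g) - (fun g => ψ (X.filter fun γ => Fg g γ)) g| ≤ δJ := by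
    intro x y hNN
    refine (psi_inv nn_nonneg ht0.le s X hX ψ hψ x y (δJ / 16) (hrare x) (hrare y)).trans ?_
    rw [hδTd] at hNN
    linarith
  have hδTJ : δT ≤ δJ := by rw [hδTd]; linarith
  rcases le_total t (A₁ * (L : ℝ) ^ 2) with hcase | hcase
  · obtain ⟨Z, hZ⟩ : ∃ Z : ℝ, Z = XX d t := ⟨_, rfl⟩
    rw [← hZ] at hdis
    have hZ1 : Real.sqrt t ≤ Z := by rw [hZ]; exact hsX t (by linarith)
    have hZ0 : 0 < Z := lt_of_lt_of_le (Real.sqrt_pos.2 ht0) hZ1
    obtain ⟨R, hR⟩ : ∃ R : ℕ, R = ⌊δ * Real.sqrt t⌋₊ := ⟨_, rfl⟩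
    have hRle : (R : ℝ) ≤ δ * Real.sqrt t := by rw [hR]; exact Nat.floor_le (by positivity)
    have hN : N₃ ≤ R := by
      rw [hR]
      refine Nat.le_floor ?_
      have h1 : ((N₃ : ℝ) + 1) / δ ≤ Real.sqrt t := Real.le_sqrt_of_sq_le (by linarith)
      rw [div_le_iff₀ hδ0] at h1
      linarith
    have hR1 : 1 ≤ R := hN₃1.trans hN
    have hRL : R ≤ L := by
      have h1 : Real.sqrt t ≤ Real.sqrt A₁ * L := by
        refine Real.sqrt_le_iff.2 ⟨by positivity, ?_⟩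
        rw [mul_pow, Real.sq_sqrt (by linarith)]
        exact hcase
      have h2 : (R : ℝ) ≤ L := by
        calc (R : ℝ) ≤ δ * Real.sqrt t := hRle
          _ ≤ δ * (Real.sqrt A₁ * L) := mul_le_mul_of_nonneg_left h1 hδ0.le
          _ = (δ * Real.sqrt A₁) * L := by ring
          _ ≤ 1 * L := mul_le_mul_of_nonneg_right hδ1 (by linarith)
          _ = L := one_mul _
      exact_mod_cast h2
    have hcard : (Pool.Agent.R517.PDS.box d L R).card = R ^ d := (t_NEAR d L R hR1 hRL 0).1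
    have hSpos : 0 < S.card := by omega
    obtain ⟨x₀, hx₀⟩ := Finset.card_pos.1 hSpos
    obtain ⟨B, hB⟩ : ∃ B : Finset (Fin d → ZMod L),
        B = (Pool.Agent.R517.PDS.box d L R).image fun b => x₀ + b := ⟨_, rfl⟩
    have hBcard : B.card = R ^ d := by
      rw [hB, Finset.card_image_of_injective _ (fun a b h => add_left_cancel h), hcard]
    have hBN : N₃ ≤ B.card := by
      rw [hBcard]
      exact hN.trans (Nat.le_self_pow (by omega) R)
    have hBpos : 0 < B.card := by omega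
    have hBr : (N₃ : ℝ) ≤ B.card := by exact_mod_cast hBN
    have hSr : (N₃ : ℝ) ≤ S.card := by exact_mod_cast (by omega : N₃ ≤ S.card)
    -- distances
    have hnear : ∀ a ∈ B ∪ S, (nrm (a - x₀) : ℝ) ≤ κ₂ / 2 * Z := by
      intro a ha
      rcases Finset.mem_union.1 ha with h1 | h1
      · rw [hB, Finset.mem_image] at h1
        obtain ⟨b, hb, rfl⟩ := h1
        have h2 := tdist_box R x₀ b 0 hb (zero_box hR1)
        rw [add_zero, tdist_nrm] at h2
        have h3 : (nrm (x₀ + b - x₀) : ℝ) ≤ d * R := by exact_mod_cast h2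
        calc (nrm (x₀ + b - x₀) : ℝ) ≤ d * R := h3
          _ ≤ d * (δ * Real.sqrt t) := mul_le_mul_of_nonneg_left hRle (by positivity)
          _ ≤ d * (δ * Z) := by
              refine mul_le_mul_of_nonneg_left ?_ (by positivity)
              exact mul_le_mul_of_nonneg_left hZ1 hδ0.le
          _ = (4 * d * δ) / 4 * Z := by ring
          _ ≤ κ₂ / 4 * Z := mul_le_mul_of_nonneg_right (by linarith) hZ0.le
          _ ≤ κ₂ / 2 * Z := mul_le_mul_of_nonneg_right (by linarith) hZ0.le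
      · have h2 := hdis a h1 x₀ hx₀
        rw [tdist_nrm] at h2
        refine h2.trans (mul_le_mul_of_nonneg_right (by linarith) hZ0.le)
    have htwo' : ∀ x ∈ B ∪ S, ∀ y ∈ B ∪ S, x ≠ y →
        |PP (nnRate d L) t x y - 1 / 2| ≤ κT / 16 := by
      intro x hx y hy hxy
      have h1 := htwo L hL (by omega) t (by linarith) 1 (by norm_num) x (fun _ => y)
        (fun _ h => hxy h.symm) (fun i j h => absurd (Subsingleton.elim i j) h) (fun _ => by
          have h2 : (nrm (y - x) : ℝ) ≤ nrm (y - x₀) + nrm (x - x₀) := by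
            exact_mod_cast nrm_tri y x x₀
          have h3 := hnear x hx
          have h4 := hnear y hy
          rw [← hZ]
          linarith)
      rw [PP_QQ] at h1
      norm_num at h1 ⊢
      exact h1
    have hsmall := ds_small (J := nnRate d L) nn_nonneg ht0.le B S hBpos hSpos (κT / 16)
      (by positivity) htwo'
    have hinv : ∀ M : ℝ, (N₃ : ℝ) ≤ M → 1 / M ≤ κT / 8 := by
      intro M hM
      have h1 : 8 / κT ≤ M := by
        have : (0 : ℝ) ≤ N₀ := by positivity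
        linarith
      have hM0 : 0 < M := lt_of_lt_of_le hN₃pos h1
      rw [div_le_iff₀ hκT] at h1
      rw [div_le_iff₀ hM0]
      linarith
    have hBNN : ∀ x ∈ B, ∀ y ∈ B, NN (nnRate d L) t (swap x y) ≤ δT := by
      intro x hx y hy
      rw [hB, Finset.mem_image] at hx hy
      obtain ⟨a, ha, rfl⟩ := hx
      obtain ⟨b, hb, rfl⟩ := hy
      rw [hR] at ha hb
      exact (NN_box C hC t ht0 (hdist L hL t ht0) δ hδ0 x₀ a b ha hb).trans hδ2
    exact htr (Fin d → ZMod L) (nnRate d L) nn_nonneg t ht0.le B (hN₀₃.trans hBN)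
      (fun x hx y hy => (hBNN x hx y hy).trans hδTJ)
      (fun g => ψ (X.filter fun γ => Fg g γ)) (fun g => hψ _)
      (fun x hx y hy => hinvar x y (hBNN x hx y hy)) S (by
        refine hsmall.trans ?_
        have h1 := hinv _ hBr
        have h2 := hinv _ hSr
        linarith)
  · have hall : ∀ x y, NN (nnRate d L) t (swap x y) ≤ δT := by
      intro x y
      rw [hδTd]
      exact hlong L hL t hcase x y
    have hds : ∀ x, ds S S x = 0 := by
      intro x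
      unfold ds
      rw [sub_self]
    exact htr (Fin d → ZMod L) (nnRate d L) nn_nonneg t ht0.le S (by omega)
      (fun x _ y _ => (hall x y).trans hδTJ)
      (fun g => ψ (X.filter fun γ => Fg g γ)) (fun g => hψ _)
      (fun x _ y _ => hinvar x y (hall x y)) S (by
        have h1 : (fun g : Perm (Fin d → ZMod L) => DR g Finset.univ (ds S S)) = fun _ => 0 := by
          funext g
          unfold DR
          refine Finset.sum_eq_zero fun x _ => Finset.sum_eq_zero fun y _ => ?_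
          rw [hds x, zero_mul, ite_self]
        rw [h1, exp_const]
        exact hκT.le)

end Pool.Agent.Helper96K9.LS
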