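import Pool.Agent.Helper47K9.SC.Stm

/-!
# The short cycles of random stirring and the random walk loop soup: definitions and statements

Plan. `W i` is a set of cyclic words of length `s i` (distinct letters, no two of them are
rotations of each other), all of which meet a union `B` of `J` balls of radius `Λ √t`.
`cnt (W i) g` is the number of words in `W i` which are cycles of `g`. The mixed factorial moments
are sums of `US` over the tuples of words (S_TUP2); inside the union `B1` of the balls of radius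
`Λ √t + M r`, `r = A0 √t log t`, they are close to the same sums of `IS` by S_MAIN, since `B1` has
at most (a power of `log t`) / `rr` elements (S_CMPW); the tuples which leave `B1` contain a long
step which starts in `B1` (S_WIN) and are rare (S_TU2, S_TV2).
-/

set_option autoImplicit false

namespace Pool.Agent.Helper96K9.LS

open Finset Equiv Pool.Agent.Y998.ST Pool.Agent.Helper47K9.SC

section defs

variable {V : Type} [Fintype V] [DecidableEq V]

/-- The steps of a cyclic word, the last one goes from the last letter to the first one. -/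
def steps {s : ℕ} (w : Fin s → V) : Finset (V × V) := univ.image fun a => (w a, w (finRotate s a))

/-- `g` maps every letter of the cyclic word to the next one. -/
def Fol (g : Perm V) {s : ℕ} (w : Fin s → V) : Prop := ∀ a, g (w a) = w (finRotate s a)

open Classical in
/-- The number of words of `W` which `g` follows. -/
noncomputable def cnt {s : ℕ} (W : Finset (Fin s → V)) (g : Perm V) : ℕ := (W.filter fun w => Fol g w).card

/-- The weight of a cyclic word. -/
noncomputable def wt (J : V → V → ℝ) (t : ℝ) {s : ℕ} (w : Fin s → V) : ℝ :=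
  ∏ a, qq J t (w a) (w (finRotate s a))

open Classical in
/-- The tuples of words with the words in the given sets. -/
noncomputable def tup {C : Type} [Fintype C] [DecidableEq C] (l : C → ℕ)
    (W : (c : C) → Finset (Fin (l c) → V)) : Finset (Ix C l → V) :=
  univ.filter fun x => ∀ c, (fun a => x ⟨c, a⟩) ∈ W c

/-- The words are injective, and two different ones (of the same or of different sets) have different
sets of steps. -/
structure Sys {m : ℕ} (s : Fin m → ℕ) (W : (i : Fin m) → Finset (Fin (s i) → V)) : Prop where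
  inj : ∀ i, ∀ w ∈ W i, Function.Injective w
  dif : ∀ i j, ∀ w ∈ W i, ∀ w' ∈ W j, steps w = steps w' →
    (⟨i, w⟩ : (i : Fin m) × (Fin (s i) → V)) = ⟨j, w'⟩

end defs

/-- TUP2. For a fixed permutation: number of the injective tuples of words which `g` follows. If `g`
follows `w` and `w'` and these have a common letter `v` then `steps w = steps w'` (both are the set
of the `(g^n v, g^(n+1) v)`). So an injective tuple is the same as a family of words
`w_(i, j) ∈ W i`, `j < b i`, followed by `g`, with `j ↦ w_(i, j)` injective for every `i`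
(`Fintype.card_embedding_eq`). -/
def S_TUP2 : Prop := ∀ (V : Type) [Fintype V] [DecidableEq V] (m : ℕ) (s : Fin m → ℕ),
  (∀ i, 1 ≤ s i) → ∀ (W : (i : Fin m) → Finset (Fin (s i) → V)), Sys s W → ∀ (g : Perm V)
  (b : Fin m → ℕ), by
  classical exact
  ((tup (C := (i : Fin m) × Fin (b i)) (fun c => s c.1) (fun c => W c.1)).filter
    fun x => Function.Injective x ∧ ∀ k, g (x k) = x (rot _ k)).card =
  ∏ i, (cnt (W i) g).descFactorial (b i)

open Classical in
/-- PROD. Sum over all tuples of words: a product (`Finset.prod_univ_sum`, `Equiv.piCurry`, as in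
`Pool.Agent.Helper47K9.SC.tv`). -/
def S_PROD : Prop := ∀ (V : Type) [Fintype V] [DecidableEq V] (J : V → V → ℝ) (t : ℝ)
  (C : Type) [Fintype C] [DecidableEq C] (l : C → ℕ) (W : (c : C) → Finset (Fin (l c) → V)),
  ∑ x ∈ tup l W, IS J t x (fun k => x (rot l k)) = ∏ c, ∑ w ∈ W c, wt J t w

open Classical in
/-- ONEW. Words through a set: the sum of the weights of the words which meet `B` is at most
`s * B.card * sup (qq J t)` (for `w a ∈ B` fix the letter `v = w a`: the weights sum up to the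
diagonal entry of the `s`-th power, `TvL.marked_trace` with the matrix with the rows outside `B`
replaced by `0`; entries of powers of a stochastic matrix with entries `≤ q` are `≤ q`). -/
def S_ONEW : Prop := ∀ (V : Type) [Fintype V] [DecidableEq V] (J : V → V → ℝ),
  (∀ x y, 0 ≤ J x y) → ∀ (t q : ℝ), 0 ≤ t → (∀ x y, qq J t x y ≤ q) → ∀ (s : ℕ), 1 ≤ s →
  ∀ (B : Finset V) (W : Finset (Fin s → V)), (∀ w ∈ W, ∃ a, w a ∈ B) →
  ∑ w ∈ W, wt J t w ≤ s * (B.card * q)

open Classical in
/-- CMPW. Comparison of stirring and independent walks for a set `S` of tuples, up to the tuples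
which leave `B1`. As `Pool.Agent.Helper47K9.SC.compare`: S_MAIN for the injective tuples of `S` with
all letters in `B1`, where `N = B1.card ^ (card - 1)` bounds the projections; the sum of `IS ≤ q ^ card`
over the tuples with letters in `B1` which are not injective is at most
`card ^ 2 * q ^ card * B1.card ^ (card - 1)`. -/
def S_CMPW : Prop := ∀ (C : Type) [Fintype C] [DecidableEq C] (l : C → ℕ), ∃ A : ℝ, 0 < A ∧
  ∀ (V : Type) [Fintype V] [DecidableEq V] (J : V → V → ℝ) (D G q t : ℝ), Hyp J D G q t →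
  ∀ (S : Finset (Ix C l → V)) (B1 : Finset V), 1 ≤ B1.card → ∀ (E1 E2 : ℝ),
  ∑ x ∈ S with Function.Injective x ∧ ∃ k, x k ∉ B1, US J t x (fun k => x (rot l k)) ≤ E1 →
  ∑ x ∈ S with ∃ k, x k ∉ B1, IS J t x (fun k => x (rot l k)) ≤ E2 →
  |∑ x ∈ S with Function.Injective x, US J t x (fun k => x (rot l k)) -
    ∑ x ∈ S, IS J t x (fun k => x (rot l k))| ≤
  A * ((1 + D * G ^ 2 * (1 + Real.log (1 + t))) *
    (q ^ Fintype.card (Ix C l) * (B1.card : ℝ) ^ (Fintype.card (Ix C l) - 1))) + E1 + E2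

open Classical in
/-- TU2. Tuples which leave `B1`, stirring. For every permutation `g` the number of tuples `x ∈ S`
with `g (x k) = x (rot k)` for all `k` and a long step at `k` which starts in `B1` is at most
`(the number of v ∈ B1 with a long step from v to g v) * (card * B1.card) ^ (C.card - 1)`, since every
word is determined by its letter in `B` (and its place), the word of `k` by the letter `x k`. Sum over
`k`. (`B ⊆ B1`, `card = card (Ix C l)`.) -/
def S_TU2 : Prop := ∀ (V : Type) [Fintype V] [DecidableEq V] (J : V → V → ℝ),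
  (∀ x y, 0 ≤ J x y) → ∀ (C : Type) [Fintype C] [DecidableEq C] (l : C → ℕ), (∀ c, 1 ≤ l c) →
  ∀ (st : V → V → Prop) (t θ : ℝ), 0 ≤ t → 0 ≤ θ → (∀ x, ∑ y with ¬ st x y, qq J t x y ≤ θ) →
  ∀ (S : Finset (Ix C l → V)) (B1 : Finset V), 1 ≤ B1.card →
  (∀ x ∈ S, ∀ c, ∃ a, x ⟨c, a⟩ ∈ B1) →
  (∀ x ∈ S, (∃ k, x k ∉ B1) → ∃ k, x k ∈ B1 ∧ ¬ st (x k) (x (rot l k))) →
  ∑ x ∈ S with ∃ k, x k ∉ B1, US J t x (fun k => x (rot l k)) ≤
    (Fintype.card (Ix C l) * (B1.card : ℝ)) ^ (Fintype.card C + 1) * θ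

open Classical in
/-- TV2. The same for independent walks (`TvL.marked_trace`: mark one letter in every word; the rows
of the matrix at the marked letter are replaced by `0` outside `B1`, for the long step also the
entries with `st`; drop the other factors). -/
def S_TV2 : Prop := ∀ (V : Type) [Fintype V] [DecidableEq V] (J : V → V → ℝ),
  (∀ x y, 0 ≤ J x y) → ∀ (C : Type) [Fintype C] [DecidableEq C] (l : C → ℕ), (∀ c, 1 ≤ l c) →
  ∀ (st : V → V → Prop) (t θ : ℝ), 0 ≤ t → 0 ≤ θ → (∀ x, ∑ y with ¬ st x y, qq J t x y ≤ θ) →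
  ∀ (S : Finset (Ix C l → V)) (B1 : Finset V), 1 ≤ B1.card →
  (∀ x ∈ S, ∀ c, ∃ a, x ⟨c, a⟩ ∈ B1) →
  (∀ x ∈ S, (∃ k, x k ∉ B1) → ∃ k, x k ∈ B1 ∧ ¬ st (x k) (x (rot l k))) →
  ∑ x ∈ S with ∃ k, x k ∉ B1, IS J t x (fun k => x (rot l k)) ≤
    (Fintype.card (Ix C l) * (B1.card : ℝ)) ^ (Fintype.card C + 1) * θ

/-- WIN. If every word of the tuple has a letter at distance at most `R` from one of the points `x0 j`
and some letter is not at distance at most `R1` from them, `R1 ≥ R + (number of letters) * r`, then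
some step longer than `r` starts at a letter at distance at most `R1` from one of the `x0 j` (the first
long step after the letter in the small ball). -/
def S_WIN : Prop := ∀ (d L : ℕ) [NeZero L] (C : Type) [Fintype C] [DecidableEq C] (l : C → ℕ)
  (n : ℕ) (x0 : Fin n → Fin d → ZMod L) (R R1 r : ℝ), 0 ≤ r →
  R + Fintype.card (Ix C l) * r ≤ R1 →
  ∀ x : Ix C l → Fin d → ZMod L, (∀ c, ∃ a j, (tdist (x0 j) (x ⟨c, a⟩) : ℝ) ≤ R) →
  (∃ k, ∀ j, R1 < (tdist (x0 j) (x k) : ℝ)) →
  ∃ k, (∃ j, (tdist (x0 j) (x k) : ℝ) ≤ R1) ∧ r < (tdist (x k) (x (rot l k)) : ℝ)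

open Classical in
/-- FMW. The mixed factorial moments in windows, all `L ≥ 3`, all `t ≥ 2`. -/
def S_FMW : Prop := ∀ (d : ℕ), 1 ≤ d → ∀ (Λ : ℝ) (n m : ℕ) (s : Fin m → ℕ), (∀ i, 1 ≤ s i) →
  ∀ b : Fin m → ℕ, ∃ (A : ℝ) (K : ℕ), 0 < A ∧ ∀ (L : ℕ) [NeZero L], 3 ≤ L → ∀ t : ℝ, 2 ≤ t →
  ∀ (x0 : Fin n → Fin d → ZMod L) (W : (i : Fin m) → Finset (Fin (s i) → Fin d → ZMod L)), Sys s W →
  (∀ i, ∀ w ∈ W i, ∃ a j, (tdist (x0 j) (w a) : ℝ) ≤ Λ * Real.sqrt t) →
  |stirExp (nnRate d L) t (fun g => ∏ i, ((cnt (W i) g).descFactorial (b i) : ℝ)) -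
    ∏ i, (∑ w ∈ W i, wt (nnRate d L) t w) ^ b i| ≤ A * Real.log t ^ K * rr d L t

/-- LAM. The means are bounded. -/
def S_LAM : Prop := ∀ (d : ℕ), 1 ≤ d → ∀ (Λ : ℝ) (n s : ℕ), 1 ≤ s → ∃ A : ℝ, 0 < A ∧
  ∀ (L : ℕ) [NeZero L], 3 ≤ L → ∀ t : ℝ, 2 ≤ t → ∀ (x0 : Fin n → Fin d → ZMod L)
  (W : Finset (Fin s → Fin d → ZMod L)),
  (∀ w ∈ W, ∃ a j, (tdist (x0 j) (w a) : ℝ) ≤ Λ * Real.sqrt t) →
  ∑ w ∈ W, wt (nnRate d L) t w ≤ A

open Classical in
/-- POISW. The joint Poisson law, for words. -/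
def S_POISW : Prop := ∀ (d : ℕ), 1 ≤ d → ∀ (Λ : ℝ) (n B m : ℕ) (s : Fin m → ℕ), (∀ i, 1 ≤ s i) →
  ∀ (a : Fin m → ℕ) (ε : ℝ), 0 < ε → ∃ T : ℝ, 2 ≤ T ∧ ∀ (L : ℕ) [NeZero L], 3 ≤ L →
  ∀ t : ℝ, T ≤ t → t ≤ (L : ℝ) ^ B →
  ∀ (x0 : Fin n → Fin d → ZMod L) (W : (i : Fin m) → Finset (Fin (s i) → Fin d → ZMod L)), Sys s W →
  (∀ i, ∀ w ∈ W i, ∃ a j, (tdist (x0 j) (w a) : ℝ) ≤ Λ * Real.sqrt t) →
  |stirExp (nnRate d L) t (fun g => if ∀ i, cnt (W i) g = a i then 1 else 0) -
    ∏ i, (Real.exp (-(∑ w ∈ W i, wt (nnRate d L) t w)) *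
      (∑ w ∈ W i, wt (nnRate d L) t w) ^ a i / (a i).factorial)| ≤ ε

end Pool.Agent.Helper96K9.LS
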