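import Pool.Agent.Helper96K9.LS.Stm

/-!
# Short cycles of random stirring and the random walk loop soup, in total variation: statements

A possible cycle is the set of its steps, a finite set of pairs `(x, y)`. The short cycles of the
stirring permutation that meet a window are compared with the Poisson process whose intensity at a
possible cycle `γ` is the product over the steps `(x, y)` of `γ` of the transition probability
`p_t (x, y)`.
-/

set_option autoImplicit false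

namespace Pool.Agent.Helper96K9.LS

open Finset Equiv Pool.Agent.Y998.ST Pool.Agent.Helper47K9.SC

section defs

variable {V : Type} [Fintype V] [DecidableEq V]

/-- `γ` is the set of steps of a cyclic word of length `s` with distinct letters, all of them
in `A`. -/
def IsC (A : Finset V) (s : ℕ) (γ : Finset (V × V)) : Prop :=
  ∃ w : Fin s → V, Function.Injective w ∧ (∀ a, w a ∈ A) ∧ γ = steps w

/-- `g` follows the steps of `γ`. -/
def Fg (g : Perm V) (γ : Finset (V × V)) : Prop := ∀ e ∈ γ, g e.1 = e.2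

/-- The intensity. -/
noncomputable def lam (J : V → V → ℝ) (t : ℝ) (γ : Finset (V × V)) : ℝ := ∏ e ∈ γ, qq J t e.1 e.2

open Classical in
/-- The probability that the stirring permutation follows all members of `H`. -/
noncomputable def rho (J : V → V → ℝ) (t : ℝ) (H : Finset (Finset (V × V))) : ℝ :=
  stirExp J t (fun g => if ∀ γ ∈ H, Fg g γ then 1 else 0)

/-- The steps of the cycle of `g` through `v`. -/
noncomputable def cyc (g : Perm V) (v : V) : Finset (V × V) :=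
  open Classical in (univ.filter fun x => g.SameCycle v x).image fun x => (x, g x)

end defs

open Classical in
/-- COR. Correlation functions in `ℓ¹`. Every `H` of size `n` is `{steps (x i)}` for a tuple `x` of
words, `x : Ix (Fin n) (fun i => l i + 1) → V` for some `l : Fin n → Fin s`. If `x` is injective then
`rho J t H = US J t x (x ∘ rot)` and `∏ lam = IS J t x (x ∘ rot)`; S_MAIN for
`S = {x | US ≥ IS}` and its complement (`N = A.card ^ (m - 1)`). If `x` is not injective then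
`rho = 0` (CYC) and `∏ lam ≤ q ^ m`, there are at most `m ^ 2 * A.card ^ (m - 1)` such `x`. -/
def S_COR : Prop := ∀ n s : ℕ, ∃ C : ℝ, 0 < C ∧ ∀ (V : Type) [Fintype V] [DecidableEq V]
  (J : V → V → ℝ) (D G q t : ℝ), Hyp J D G q t → ∀ (A : Finset V) (X : Finset (Finset (V × V))),
  (∀ γ ∈ X, ∃ m, 1 ≤ m ∧ m ≤ s ∧ IsC A m γ) → ∀ β : ℝ, 0 ≤ β →
  (∀ m, 1 ≤ m → m ≤ n * s →
    (D * G ^ 2 + 1) * (q ^ m * (A.card : ℝ) ^ (m - 1)) * (1 + Real.log (1 + t)) ≤ β) →
  ∑ H ∈ X.powersetCard n, |rho J t H - ∏ γ ∈ H, lam J t γ| ≤ C * β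

open Classical in
/-- BON. From correlation functions to total variation (Bonferroni inequalities). -/
def S_BON : Prop := ∀ (Λ ε : ℝ), 0 < ε → ∃ (M0 : ℕ) (δ : ℝ), 0 < δ ∧
  ∀ (α Ω : Type) [Fintype Ω] (w : Ω → ℝ) (X : Finset α) (S : Ω → Finset α) (l : α → ℝ),
  (∀ ω, 0 ≤ w ω) → ∑ ω, w ω = 1 → (∀ ω, S ω ⊆ X) → (∀ γ ∈ X, 0 ≤ l γ ∧ l γ ≤ δ) →
  ∑ γ ∈ X, l γ ≤ Λ →
  (∀ n ≤ M0, ∑ H ∈ X.powersetCard n, |∑ ω, w ω * (if H ⊆ S ω then 1 else 0) - ∏ γ ∈ H, l γ| ≤ δ) →
  ∑ F ∈ X.powerset, |∑ ω, w ω * (if S ω = F then 1 else 0) -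
    Real.exp (-(∑ γ ∈ X, l γ)) * ∏ γ ∈ F, l γ| ≤ ε

/-- CYC. If `g` follows a cyclic word then its steps are the cycle of `g` through any of its
letters. -/
def S_CYC : Prop := ∀ (V : Type) [Fintype V] [DecidableEq V] (g : Perm V) (s : ℕ) (w : Fin s → V),
  Function.Injective w → (∀ a, g (w a) = w (finRotate s a)) → ∀ a, steps w = cyc g (w a)

/-- EXI. The cycle of `g` through `v` is the set of steps of a word. -/
def S_EXI : Prop := ∀ (V : Type) [Fintype V] [DecidableEq V] (g : Perm V) (v : V),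
  ∃ (s : ℕ) (w : Fin s → V), 1 ≤ s ∧ s = (cyc g v).card ∧ Function.Injective w ∧
    (∀ a, g (w a) = w (finRotate s a)) ∧ (∃ a, w a = v) ∧ cyc g v = steps w

open Classical in
/-- MASS. Words through a set `B`: the total intensity of the possible cycles of length at most `s`
with a letter in `B` (and, second clause, with a letter outside `B1` and a long step from a letter
in `B1`). `TvL.marked_trace` with the row of the marked letter replaced by `0` outside `B`;
entries of powers of a stochastic matrix with entries `≤ q` are `≤ q`. -/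
def S_MASS : Prop := ∀ (V : Type) [Fintype V] [DecidableEq V] (J : V → V → ℝ),
  (∀ x y, 0 ≤ J x y) → ∀ (t q θ : ℝ) (st : V → V → Prop), 0 ≤ t → (∀ x y, qq J t x y ≤ q) →
  (∀ x, ∑ y with ¬ st x y, qq J t x y ≤ θ) → 0 ≤ θ → ∀ (s : ℕ)
  (B : Finset V) (X : Finset (Finset (V × V))), (∀ γ ∈ X, ∃ m, 1 ≤ m ∧ m ≤ s ∧ IsC univ m γ) →
  ((∀ γ ∈ X, ∃ e ∈ γ, e.1 ∈ B) → ∑ γ ∈ X, lam J t γ ≤ s ^ 2 * (B.card * q)) ∧
  ((∀ γ ∈ X, ∃ e ∈ γ, e.1 ∈ B ∧ ¬ st e.1 e.2) → ∑ γ ∈ X, lam J t γ ≤ s ^ 2 * (B.card * θ))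

open Classical in
/-- GEN. Abstract form, from COR, BON, CYC. -/
def S_GEN : Prop := ∀ (s : ℕ) (Λ ε : ℝ), 0 < ε → ∃ (M0 : ℕ) (δ : ℝ), 0 < δ ∧
  ∀ (V : Type) [Fintype V] [DecidableEq V]
  (J : V → V → ℝ) (D G q t : ℝ), Hyp J D G q t → ∀ (A : Finset V) (X : Finset (Finset (V × V))),
  (∀ γ ∈ X, ∃ m, 1 ≤ m ∧ m ≤ s ∧ IsC A m γ) → ∑ γ ∈ X, lam J t γ ≤ Λ →
  (∀ m, 1 ≤ m → m ≤ M0 →
    (D * G ^ 2 + 1) * (q ^ m * (A.card : ℝ) ^ (m - 1)) * (1 + Real.log (1 + t)) ≤ δ) →
  ∑ F ∈ X.powerset, |stirExp J t (fun g => if X.filter (fun γ => Fg g γ) = F then 1 else 0) -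
    Real.exp (-(∑ γ ∈ X, lam J t γ)) * ∏ γ ∈ F, lam J t γ| ≤ ε

end Pool.Agent.Helper96K9.LS
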